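import Mathlib

/-!
# Newton's map of `P e^{∫Q}` near infinity
-/

open Polynomial Filter Topology Bornology

namespace Pool.Agent.X304.Newt

/-- `d(P) = Q P + P'`. -/
noncomputable def dd (Q P : ℂ[X]) : ℂ[X] := Q * P + derivative P

/-- Newton's map `z ↦ z - P/(Q P + P')`. -/
noncomputable def N (Q P : ℂ[X]) (z : ℂ) : ℂ := z - P.eval z / (dd Q P).eval z

theorem eventually_ne_zero : ∀ᶠ z : ℂ in cobounded ℂ, z ≠ 0 := by
  have : ({0} : Set ℂ)ᶜ ∈ cobounded ℂ := isBounded_def.1 isBounded_singleton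
  filter_upwards [this] with z hz
  simpa using hz

theorem tendsto_div_pow (A : ℂ[X]) :
    Tendsto (fun z : ℂ => A.eval z / z ^ A.natDegree) (cobounded ℂ) (𝓝 A.leadingCoeff) := by
  have h1 : Tendsto (fun z : ℂ => A.reverse.eval z⁻¹) (cobounded ℂ) (𝓝 A.leadingCoeff) := by
    have h2 : Tendsto (fun z : ℂ => A.reverse.eval z) (𝓝 0) (𝓝 (A.reverse.eval 0)) :=
      A.reverse.continuous.tendsto 0
    have h3 : A.reverse.eval 0 = A.leadingCoeff := by
      rw [← coeff_zero_eq_eval_zero, coeff_zero_reverse]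
    rw [h3] at h2
    exact h2.comp tendsto_inv₀_cobounded
  refine h1.congr' ?_
  filter_upwards [eventually_ne_zero] with z hz
  have : Invertible z := invertibleOfNonzero hz
  have h4 := eval₂_reverse_mul_pow (RingHom.id ℂ) z A
  rw [invOf_eq_inv] at h4
  rw [eq_div_iff (pow_ne_zero _ hz)]
  simpa [eval₂_id] using h4

section

variable {Q P : ℂ[X]}

theorem natDegree_dd (hQ : Q ≠ 0) (hP : P ≠ 0) :
    (dd Q P).natDegree = Q.natDegree + P.natDegree := by
  have h0 : (Q * P).natDegree = Q.natDegree + P.natDegree := natDegree_mul hQ hP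
  by_cases hd : derivative P = 0
  · simp [dd, hd, h0]
  have hpos : 0 < P.natDegree := by
    rcases Nat.eq_zero_or_pos P.natDegree with h | h
    · exact absurd (by rw [eq_C_of_natDegree_eq_zero h]; simp) hd
    · exact h
  have h1 : (derivative P).natDegree < P.natDegree := natDegree_derivative_lt hpos.ne'
  rw [dd, natDegree_add_eq_left_of_natDegree_lt (by omega), h0]

theorem leadingCoeff_dd (hQ : Q ≠ 0) (hP : P ≠ 0) :
    (dd Q P).leadingCoeff = Q.leadingCoeff * P.leadingCoeff := by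
  have h0 : (Q * P).natDegree = Q.natDegree + P.natDegree := natDegree_mul hQ hP
  by_cases hd : derivative P = 0
  · simp [dd, hd]
  have hpos : 0 < P.natDegree := by
    rcases Nat.eq_zero_or_pos P.natDegree with h | h
    · exact absurd (by rw [eq_C_of_natDegree_eq_zero h]; simp) hd
    · exact h
  have h1 : (derivative P).natDegree < P.natDegree := natDegree_derivative_lt hpos.ne'
  rw [← leadingCoeff_mul, dd, leadingCoeff_add_of_degree_lt']
  exact degree_lt_degree (by omega)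

theorem dd_ne_zero (hQ : Q ≠ 0) (hP : P ≠ 0) : dd Q P ≠ 0 := by
  intro h
  have := leadingCoeff_dd hQ hP
  rw [h, leadingCoeff_zero, eq_comm, mul_eq_zero] at this
  rcases this with h | h
  · exact hQ (leadingCoeff_eq_zero.1 h)
  · exact hP (leadingCoeff_eq_zero.1 h)

/-- `z^q P/d(P) → 1/c`. -/
theorem tendsto_ratio (hQ : Q ≠ 0) (hP : P ≠ 0) :
    Tendsto (fun z : ℂ => z ^ Q.natDegree * (P.eval z / (dd Q P).eval z)) (cobounded ℂ)
      (𝓝 (Q.leadingCoeff)⁻¹) := by
  have h1 := tendsto_div_pow P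
  have h2 := tendsto_div_pow (dd Q P)
  have hc : Q.leadingCoeff ≠ 0 := leadingCoeff_ne_zero.2 hQ
  have hp : P.leadingCoeff ≠ 0 := leadingCoeff_ne_zero.2 hP
  rw [natDegree_dd hQ hP, leadingCoeff_dd hQ hP] at h2
  have h3 := h1.div h2 (mul_ne_zero hc hp)
  have e : P.leadingCoeff / (Q.leadingCoeff * P.leadingCoeff) = (Q.leadingCoeff)⁻¹ := by
    field_simp
  rw [e] at h3
  refine h3.congr' ?_
  filter_upwards [eventually_ne_zero] with z hz
  simp only [Pi.div_apply]
  rw [pow_add]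
  by_cases hd : (dd Q P).eval z = 0
  · simp [hd]
  · have := pow_ne_zero Q.natDegree hz
    have := pow_ne_zero P.natDegree hz
    field_simp

theorem tendsto_inv_pow_mul (q : ℕ) {f : ℂ → ℂ} {L : ℂ}
    (hf : Tendsto (fun z : ℂ => z ^ q * f z) (cobounded ℂ) (𝓝 L)) :
    Tendsto (fun z => f z / z) (cobounded ℂ) (𝓝 0) := by
  have h1 : Tendsto (fun z : ℂ => (z⁻¹) ^ (q + 1)) (cobounded ℂ) (𝓝 0) := by
    have := (tendsto_inv₀_cobounded (α := ℂ)).pow (q + 1)
    simpa using this
  have h2 := hf.mul h1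
  rw [mul_zero] at h2
  refine h2.congr' ?_
  filter_upwards [eventually_ne_zero] with z hz
  have := pow_ne_zero q hz
  rw [inv_pow, pow_succ]
  field_simp

theorem tendsto_N_div (hQ : Q ≠ 0) (hP : P ≠ 0) :
    Tendsto (fun z : ℂ => N Q P z / z) (cobounded ℂ) (𝓝 1) := by
  have h1 := tendsto_inv_pow_mul _ (tendsto_ratio hQ hP)
  have h2 : Tendsto (fun z : ℂ => 1 - P.eval z / (dd Q P).eval z / z) (cobounded ℂ) (𝓝 (1 - 0)) :=
    tendsto_const_nhds.sub h1
  rw [sub_zero] at h2
  refine h2.congr' ?_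
  filter_upwards [eventually_ne_zero] with z hz
  rw [N, sub_div, div_self hz]

/-- The coordinate in which Newton's map is close to a translation near infinity. -/
noncomputable def W (Q : ℂ[X]) (z : ℂ) : ℂ := -Q.leadingCoeff * z ^ (Q.natDegree + 1)

theorem tendsto_W (hQ : Q ≠ 0) (hP : P ≠ 0) :
    Tendsto (fun z : ℂ => W Q (N Q P z) - W Q z) (cobounded ℂ) (𝓝 (Q.natDegree + 1 : ℂ)) := by
  set q := Q.natDegree with hq
  have hc : Q.leadingCoeff ≠ 0 := leadingCoeff_ne_zero.2 hQ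
  have h1 : Tendsto (fun z : ℂ => ∑ i ∈ Finset.range (q + 1), (N Q P z / z) ^ i) (cobounded ℂ)
      (𝓝 (∑ i ∈ Finset.range (q + 1), (1 : ℂ) ^ i)) :=
    tendsto_finsetSum _ fun i _ => (tendsto_N_div hQ hP).pow i
  have h2 := ((tendsto_ratio hQ hP).mul h1).const_mul Q.leadingCoeff
  have e : Q.leadingCoeff * ((Q.leadingCoeff)⁻¹ * ∑ i ∈ Finset.range (q + 1), (1 : ℂ) ^ i) =
      (q + 1 : ℂ) := by
    rw [← mul_assoc, mul_inv_cancel₀ hc]
    simp
  rw [e] at h2
  refine h2.congr' ?_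
  filter_upwards [eventually_ne_zero] with z hz
  have h3 := Commute.geom_sum₂_mul (Commute.all (N Q P z) z) (q + 1)
  have h4 : N Q P z - z = -(P.eval z / (dd Q P).eval z) := by rw [N]; ring
  have h5 : z ^ q * ∑ i ∈ Finset.range (q + 1), (N Q P z / z) ^ i =
      ∑ i ∈ Finset.range (q + 1), N Q P z ^ i * z ^ (q + 1 - 1 - i) := by
    rw [Finset.mul_sum]
    refine Finset.sum_congr rfl fun i hi => ?_
    have hi' : i ≤ q := by simpa [Nat.lt_succ_iff] using hi
    have h6 : z ^ q = z ^ (q - i) * z ^ i := by rw [← pow_add]; congr 1; omega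
    have h7 : q + 1 - 1 - i = q - i := by omega
    rw [h6, h7, div_pow]
    have := pow_ne_zero i hz
    field_simp
  rw [h4, ← h5] at h3
  rw [W, W, ← hq, ← mul_sub, ← h3]
  ring

end

end Pool.Agent.X304.Newt
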