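import Pool.Agent.X304.Newt.Asym

/-!
# Newton's map is a covering over the basin
-/

open Polynomial Filter Topology Bornology Metric

namespace Pool.Agent.X304.Newt

variable {Q P : ℂ[X]}

theorem hasStrictDerivAt_N {z : ℂ} (hz : (dd Q P).eval z ≠ 0) :
    HasStrictDerivAt (N Q P)
      (P.eval z * (dd Q (dd Q P)).eval z / (dd Q P).eval z ^ 2) z := by
  have h1 := (P.hasStrictDerivAt z).div ((dd Q P).hasStrictDerivAt z) hz
  have h2 := (hasStrictDerivAt_id z).sub h1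
  have e1 : (dd Q (dd Q P)).eval z =
      Q.eval z * (dd Q P).eval z + (derivative (dd Q P)).eval z := by
    conv_lhs => rw [dd]
    simp
  have e2 : (derivative P).eval z = (dd Q P).eval z - Q.eval z * P.eval z := by
    simp [dd]
  have e3 : P.eval z * (dd Q (dd Q P)).eval z / (dd Q P).eval z ^ 2 =
      1 - ((derivative P).eval z * (dd Q P).eval z - P.eval z * (derivative (dd Q P)).eval z) /
        (dd Q P).eval z ^ 2 := by
    rw [e1, e2]
    field_simp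
    ring
  rw [e3]
  exact h2

/-- The domain of Newton's map. -/
abbrev E (Q P : ℂ[X]) : Type := {z : ℂ // (dd Q P).eval z ≠ 0}

/-- Newton's map on its domain. -/
noncomputable def NE (Q P : ℂ[X]) (z : E Q P) : ℂ := N Q P z.1

theorem isOpen_dom : IsOpen {z : ℂ | (dd Q P).eval z ≠ 0} :=
  isOpen_ne_fun (dd Q P).continuous continuous_const

theorem exists_bound (hQ : Q ≠ 0) (hP : P ≠ 0) :
    ∃ M : ℝ, ∀ z : ℂ, M ≤ ‖z‖ → (dd Q P).eval z ≠ 0 ∧ ‖z‖ ≤ 2 * ‖N Q P z‖ := by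
  have h1 : ∀ᶠ z : ℂ in cobounded ℂ, (dd Q P).eval z ≠ 0 := by
    have hf : {z : ℂ | (dd Q P).eval z = 0}.Finite := by
      have := (dd Q P).rootSet_finite ℂ
      refine this.subset fun z hz => ?_
      rw [mem_rootSet]
      exact ⟨dd_ne_zero hQ hP, by simpa using hz⟩
    have := isBounded_def.1 hf.isBounded
    filter_upwards [this] with z hz
    exact hz
  have h2 : ∀ᶠ z : ℂ in cobounded ℂ, ‖N Q P z / z - 1‖ < 1 / 2 := by
    have := (tendsto_N_div hQ hP)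
    rw [Metric.tendsto_nhds] at this
    have := this (1 / 2) (by norm_num)
    filter_upwards [this] with z hz
    rwa [dist_eq_norm] at hz
  have h3 := (h1.and h2).and eventually_ne_zero
  rw [← comap_norm_atTop, eventually_comap, eventually_atTop] at h3
  obtain ⟨M, hM⟩ := h3
  refine ⟨M, fun z hz => ?_⟩
  obtain ⟨⟨h4, h5⟩, h6⟩ := hM ‖z‖ hz z rfl
  refine ⟨h4, ?_⟩
  have h7 : (1 / 2 : ℝ) ≤ ‖N Q P z / z‖ := by
    have : ‖(1 : ℂ)‖ ≤ ‖N Q P z / z‖ + ‖N Q P z / z - 1‖ := by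
      calc ‖(1 : ℂ)‖ = ‖N Q P z / z - (N Q P z / z - 1)‖ := by congr 1; ring
        _ ≤ _ := norm_sub_le _ _
    rw [norm_one] at this
    linarith
  rw [norm_div, le_div_iff₀ (norm_pos_iff.2 h6)] at h7
  linarith

theorem isClosedMap_NE (hQ : Q ≠ 0) (hP : P ≠ 0)
    (hcop : ∀ z, P.eval z = 0 → (dd Q P).eval z ≠ 0) : IsClosedMap (NE Q P) := by
  intro C hC
  refine IsSeqClosed.isClosed fun w w₀ hw hlim => ?_
  choose x hx hxw using hw
  obtain ⟨M, hM⟩ := exists_bound hQ hP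
  obtain ⟨B, hB⟩ := (isBounded_range_of_tendsto w hlim).exists_norm_le
  have hbd : ∀ n, ‖(x n).1‖ ≤ max M (2 * B) := by
    intro n
    by_cases h : M ≤ ‖(x n).1‖
    · have h1 := (hM _ h).2
      have h2 : N Q P (x n).1 = w n := hxw n
      rw [h2] at h1
      exact le_max_of_le_right (h1.trans (by linarith [hB _ ⟨n, rfl⟩]))
    · exact le_max_of_le_left (le_of_not_ge h)
  have hmem : ∀ n, (x n).1 ∈ closedBall (0 : ℂ) (max M (2 * B)) := fun n => by
    simpa using hbd n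
  obtain ⟨a, -, φ, hφ, hlim'⟩ := (isCompact_closedBall (0 : ℂ) (max M (2 * B))).tendsto_subseq hmem
  have hwφ : Tendsto (w ∘ φ) atTop (𝓝 w₀) := hlim.comp hφ.tendsto_atTop
  have key : (a - w₀) * (dd Q P).eval a = P.eval a := by
    have h1 : Tendsto (fun n => ((x (φ n)).1 - w (φ n)) * (dd Q P).eval (x (φ n)).1) atTop
        (𝓝 ((a - w₀) * (dd Q P).eval a)) :=
      (hlim'.sub hwφ).mul (((dd Q P).continuous.tendsto a).comp hlim')
    have h2 : Tendsto (fun n => P.eval (x (φ n)).1) atTop (𝓝 (P.eval a)) :=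
      (P.continuous.tendsto a).comp hlim'
    refine tendsto_nhds_unique h1 (h2.congr fun n => ?_)
    have h3 : N Q P (x (φ n)).1 = w (φ n) := hxw (φ n)
    have h4 := (x (φ n)).2
    rw [← h3, N]
    field_simp
    ring
  have ha : (dd Q P).eval a ≠ 0 := by
    intro h
    rw [h, mul_zero] at key
    exact hcop a key.symm h
  have h5 : Tendsto (fun n => x (φ n)) atTop (𝓝 (⟨a, ha⟩ : E Q P)) := by
    rw [tendsto_subtype_rng]
    exact hlim'
  refine ⟨⟨a, ha⟩, hC.mem_of_tendsto h5 (Eventually.of_forall fun n => hx _), ?_⟩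
  change N Q P a = w₀
  rw [N, ← key]
  field_simp
  ring

theorem finite_fiber (hQ : Q ≠ 0) (hP : P ≠ 0) (w : ℂ) : (NE Q P ⁻¹' {w}).Finite := by
  set F : ℂ[X] := (X - C w) * dd Q P - P with hF
  have hFne : F ≠ 0 := by
    intro h
    have h1 : (X - C w) * dd Q P = P := by
      rw [← sub_eq_zero]
      exact h
    have h2 := congrArg natDegree h1
    rw [natDegree_mul (X_sub_C_ne_zero w) (dd_ne_zero hQ hP), natDegree_dd hQ hP,
      natDegree_X_sub_C] at h2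
    omega
  have h3 : (Subtype.val '' (NE Q P ⁻¹' {w}) : Set ℂ).Finite := by
    refine (F.rootSet_finite ℂ).subset ?_
    rintro _ ⟨z, hz, rfl⟩
    rw [mem_rootSet]
    refine ⟨hFne, ?_⟩
    have h4 : N Q P z.1 = w := hz
    have h5 := z.2
    rw [coe_aeval_eq_eval, hF, eval_sub, eval_mul, eval_sub, eval_X, eval_C, ← h4, N]
    field_simp
    ring
  exact h3.of_finite_image Subtype.val_injective.injOn

theorem isLocalHomeomorphOn_NE {s : Set ℂ}
    (hs : ∀ z, (dd Q P).eval z ≠ 0 → N Q P z ∈ s → P.eval z * (dd Q (dd Q P)).eval z ≠ 0) :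
    IsLocalHomeomorphOn (NE Q P) (NE Q P ⁻¹' s) := by
  intro x hx
  have h1 := hs x.1 x.2 hx
  have h2 : P.eval x.1 * (dd Q (dd Q P)).eval x.1 / (dd Q P).eval x.1 ^ 2 ≠ 0 :=
    div_ne_zero h1 (pow_ne_zero _ x.2)
  have h3 := (hasStrictDerivAt_N (Q := Q) (P := P) x.2).hasStrictFDerivAt_equiv h2
  have hne : Nonempty (E Q P) := ⟨x⟩
  have hemb : IsOpenEmbedding (Subtype.val : E Q P → ℂ) :=
    (isOpen_dom (Q := Q) (P := P)).isOpenEmbedding_subtypeVal
  refine ⟨(hemb.toOpenPartialHomeomorph _).trans (h3.toOpenPartialHomeomorph _), ?_, ?_⟩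
  · rw [OpenPartialHomeomorph.trans_source]
    refine ⟨by simp, ?_⟩
    exact h3.mem_toOpenPartialHomeomorph_source
  · funext z
    simp [NE]

theorem isCoveringMapOn_NE (hQ : Q ≠ 0) (hP : P ≠ 0)
    (hcop : ∀ z, P.eval z = 0 → (dd Q P).eval z ≠ 0) {s : Set ℂ}
    (hs : ∀ z, (dd Q P).eval z ≠ 0 → N Q P z ∈ s → P.eval z * (dd Q (dd Q P)).eval z ≠ 0) :
    IsCoveringMapOn (NE Q P) s :=
  (isClosedMap_NE hQ hP hcop).isCoveringMapOn_of_isLocalHomeomorphOn
    (fun w _ => finite_fiber hQ hP w) (isLocalHomeomorphOn_NE hs)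

/-- One-step lifting of maps of simply connected spaces. -/
theorem lift_one (hQ : Q ≠ 0) (hP : P ≠ 0)
    (hcop : ∀ z, P.eval z = 0 → (dd Q P).eval z ≠ 0) {s : Set ℂ}
    (hs : ∀ z, (dd Q P).eval z ≠ 0 → N Q P z ∈ s → P.eval z * (dd Q (dd Q P)).eval z ≠ 0)
    {A : Type} [TopologicalSpace A] [SimplyConnectedSpace A] [LocallyPathConnectedSpace A]
    (G : C(A, ℂ)) (hG : ∀ a, G a ∈ s) (a₀ : A) (z₀ : ℂ) (hz₀ : (dd Q P).eval z₀ ≠ 0)
    (hN : N Q P z₀ = G a₀) :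
    ∃ F : C(A, ℂ), F a₀ = z₀ ∧ ∀ a, (dd Q P).eval (F a) ≠ 0 ∧ N Q P (F a) = G a := by
  have cov := isCoveringMapOn_NE hQ hP hcop hs
  obtain ⟨F, ⟨hF1, hF2⟩, -⟩ := cov.existsUnique_continuousMap_lifts G (a₀ := a₀)
    (e₀ := (⟨z₀, hz₀⟩ : E Q P)) hN hG
  refine ⟨⟨fun a => (F a).1, continuous_subtype_val.comp F.continuous⟩, ?_, fun a => ⟨(F a).2, ?_⟩⟩
  · exact congrArg Subtype.val hF1
  · exact congrFun hF2 a

/-- Lifting through an iterate. -/
theorem lift_iter (hQ : Q ≠ 0) (hP : P ≠ 0)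
    (hcop : ∀ z, P.eval z = 0 → (dd Q P).eval z ≠ 0) {s : Set ℂ}
    (hs : ∀ z, (dd Q P).eval z ≠ 0 → N Q P z ∈ s → P.eval z * (dd Q (dd Q P)).eval z ≠ 0)
    (hback : ∀ z, (dd Q P).eval z ≠ 0 → N Q P z ∈ s → z ∈ s)
    {A : Type} [TopologicalSpace A] [SimplyConnectedSpace A] [LocallyPathConnectedSpace A]
    (G : C(A, ℂ)) (hG : ∀ a, G a ∈ s) (a₀ : A) (n : ℕ) : ∀ (z₀ : ℂ)
    (_ : ∀ k < n, (dd Q P).eval ((N Q P)^[k] z₀) ≠ 0)
    (_ : (N Q P)^[n] z₀ = G a₀),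
    ∃ F : C(A, ℂ), F a₀ = z₀ ∧ ∀ a, F a ∈ s ∧ (∀ k < n, (dd Q P).eval ((N Q P)^[k] (F a)) ≠ 0) ∧
      (N Q P)^[n] (F a) = G a := by
  induction n with
  | zero =>
    intro z₀ _ h
    exact ⟨G, h.symm, fun a => ⟨hG a, by simp, rfl⟩⟩
  | succ n ih =>
    intro z₀ h1 h2
    obtain ⟨F₁, hF1, hF2⟩ := ih (N Q P z₀) (fun k hk => by
      rw [← Function.iterate_succ_apply]
      exact h1 (k + 1) (by omega)) (by rw [← Function.iterate_succ_apply]; exact h2)
    obtain ⟨F, hF3, hF4⟩ := lift_one hQ hP hcop hs F₁ (fun a => (hF2 a).1) a₀ z₀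
      (h1 0 (by omega)) hF1.symm
    refine ⟨F, hF3, fun a => ⟨hback _ (hF4 a).1 ?_, ?_, ?_⟩⟩
    · rw [(hF4 a).2]; exact (hF2 a).1
    · intro k hk
      rcases k with _ | k
      · exact (hF4 a).1
      · rw [Function.iterate_succ_apply, (hF4 a).2]
        exact (hF2 a).2.1 k (by omega)
    · rw [Function.iterate_succ_apply, (hF4 a).2]
      exact (hF2 a).2.2

end Pool.Agent.X304.Newt
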