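import Pool.Agent.X304.Newt.Cover

/-!
# Lower bound for the derivative of iterates from inverse branches
-/

open Polynomial Filter Topology Bornology Metric

namespace Pool.Agent.X304.Newt

variable {Q P : ℂ[X]}

theorem exists_hasDerivAt_iter (n : ℕ) : ∀ (z : ℂ)
    (_ : ∀ k < n, (dd Q P).eval ((N Q P)^[k] z) ≠ 0)
    (_ : ∀ k < n, P.eval ((N Q P)^[k] z) * (dd Q (dd Q P)).eval ((N Q P)^[k] z) ≠ 0),
    ∃ f' : ℂ, f' ≠ 0 ∧ HasDerivAt ((N Q P)^[n]) f' z := by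
  induction n with
  | zero =>
    intro z _ _
    exact ⟨1, one_ne_zero, hasDerivAt_id z⟩
  | succ n ih =>
    intro z h1 h2
    obtain ⟨f', hf1, hf2⟩ := ih (N Q P z)
      (fun k hk => by
        rw [← Function.iterate_succ_apply]
        exact h1 (k + 1) (by omega))
      (fun k hk => by
        rw [← Function.iterate_succ_apply]
        exact h2 (k + 1) (by omega))
    have h3 := (hasStrictDerivAt_N (Q := Q) (P := P) (h1 0 (by omega))).hasDerivAt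
    have h4 := h2 0 (by omega)
    have h5 := h1 0 (by omega)
    simp only [Function.iterate_zero, id_eq] at h3 h4 h5
    refine ⟨f' * (P.eval z * (dd Q (dd Q P)).eval z / (dd Q P).eval z ^ 2),
      mul_ne_zero hf1 (div_ne_zero h4 (pow_ne_zero _ h5)), ?_⟩
    rw [Function.iterate_succ]
    exact hf2.comp z h3

theorem lower_bound (hQ : Q ≠ 0) (hP : P ≠ 0)
    (hcop : ∀ z, P.eval z = 0 → (dd Q P).eval z ≠ 0) {s : Set ℂ}
    (hs : ∀ z, (dd Q P).eval z ≠ 0 → N Q P z ∈ s → P.eval z * (dd Q (dd Q P)).eval z ≠ 0)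
    (hback : ∀ z, (dd Q P).eval z ≠ 0 → N Q P z ∈ s → z ∈ s)
    (hfwd : ∀ z ∈ s, (dd Q P).eval z ≠ 0 → N Q P z ∈ s)
    {p : ℂ} {r : ℝ} (hr : 0 < r) (hpr : ∀ z ∈ s, r ≤ ‖z - p‖)
    (n : ℕ) (z₀ : ℂ) (hz₀ : ∀ k < n, (dd Q P).eval ((N Q P)^[k] z₀) ≠ 0)
    {ρ : ℝ} (hρ : 0 < ρ) (hball : ball ((N Q P)^[n] z₀) ρ ⊆ s)
    {f' : ℂ} (hf' : HasDerivAt ((N Q P)^[n]) f' z₀) :
    r * ρ ≤ 2 * ‖z₀ - p‖ ^ 2 * ‖f'‖ := by
  classical
  set a := (N Q P)^[n] z₀ with ha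
  have hconv : Convex ℝ (ball a ρ) := convex_ball a ρ
  have hne : (ball a ρ).Nonempty := ⟨a, mem_ball_self hρ⟩
  have : ContractibleSpace (ball a ρ) := hconv.contractibleSpace hne
  have : LocallyPathConnectedSpace (ball a ρ) := isOpen_ball.locallyPathConnectedSpace
  let G : C(ball a ρ, ℂ) := ⟨Subtype.val, continuous_subtype_val⟩
  obtain ⟨F, hF1, hF2⟩ := lift_iter hQ hP hcop hs hback G (fun x => hball x.2)
    ⟨a, mem_ball_self hρ⟩ n z₀ hz₀ rfl
  let ψ : ℂ → ℂ := fun w => if h : w ∈ ball a ρ then F ⟨w, h⟩ else 0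
  have hψ : ∀ w (h : w ∈ ball a ρ), ψ w = F ⟨w, h⟩ := fun w h => by simp only [ψ, dif_pos h]
  have hψa : ψ a = z₀ := by rw [hψ a (mem_ball_self hρ)]; exact hF1
  have hψc : ContinuousOn ψ (ball a ρ) := by
    rw [continuousOn_iff_continuous_domRestrict]
    refine F.continuous.congr fun x => ?_
    rw [Set.domRestrict_apply, hψ x.1 x.2]
  have horb : ∀ w ∈ ball a ρ, ∀ k < n, (dd Q P).eval ((N Q P)^[k] (ψ w)) ≠ 0 := fun w h => by
    rw [hψ w h]; exact (hF2 ⟨w, h⟩).2.1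
  have hin : ∀ w ∈ ball a ρ, ∀ k ≤ n, (N Q P)^[k] (ψ w) ∈ s := by
    intro w h k
    induction k with
    | zero => intro _; rw [Function.iterate_zero, id, hψ w h]; exact (hF2 ⟨w, h⟩).1
    | succ k ih =>
      intro hk
      rw [Function.iterate_succ_apply']
      exact hfwd _ (ih (by omega)) (horb w h k (by omega))
  have hinv : ∀ w ∈ ball a ρ, (N Q P)^[n] (ψ w) = w := fun w h => by
    rw [hψ w h]; exact (hF2 ⟨w, h⟩).2.2
  have hder : ∀ w ∈ ball a ρ, ∃ g' : ℂ, g' ≠ 0 ∧ HasDerivAt ((N Q P)^[n]) g' (ψ w) ∧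
      HasDerivAt ψ g'⁻¹ w := by
    intro w h
    obtain ⟨g', hg1, hg2⟩ := exists_hasDerivAt_iter (Q := Q) (P := P) n (ψ w) (horb w h)
      (fun k hk => hs _ (horb w h k hk) (by
        have := hin w h (k + 1) (by omega)
        rwa [Function.iterate_succ_apply'] at this))
    refine ⟨g', hg1, hg2, HasDerivAt.of_local_left_inverse
      (hψc.continuousAt (isOpen_ball.mem_nhds h)) hg2 hg1 ?_⟩
    filter_upwards [isOpen_ball.mem_nhds h] with y hy
    exact hinv y hy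
  have hfar : ∀ w ∈ ball a ρ, r ≤ ‖ψ w - p‖ := fun w h => hpr _ (hin w h 0 (by omega))
  have hne' : ∀ w ∈ ball a ρ, ψ w - p ≠ 0 := fun w h h0 => by
    have := hfar w h
    rw [h0, norm_zero] at this
    linarith
  have hd : DifferentiableOn ℂ (fun w => (ψ w - p)⁻¹) (ball a ρ) := by
    intro w h
    obtain ⟨g', _, _, hg⟩ := hder w h
    exact ((hg.sub_const p).inv (hne' w h)).differentiableAt.differentiableWithinAt
  have hsub : closedBall a (ρ / 2) ⊆ ball a ρ := closedBall_subset_ball (by linarith)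
  have hd' : DiffContOnCl ℂ (fun w => (ψ w - p)⁻¹) (ball a (ρ / 2)) :=
    (hd.mono hsub).diffContOnCl_ball le_rfl
  have hC : ∀ w ∈ sphere a (ρ / 2), ‖(ψ w - p)⁻¹‖ ≤ r⁻¹ := by
    intro w hw
    rw [norm_inv]
    exact inv_anti₀ hr (hfar w (hsub (sphere_subset_closedBall hw)))
  have hcauchy := Complex.norm_deriv_le_of_forall_mem_sphere_norm_le (by linarith) hd' hC
  obtain ⟨g', hg0, hg1, hg2⟩ := hder a (mem_ball_self hρ)
  rw [hψa] at hg1
  have hgf : g' = f' := hg1.unique hf'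
  subst hgf
  have hder2 : HasDerivAt (fun w => (ψ w - p)⁻¹) (-g'⁻¹ / (ψ a - p) ^ 2) a :=
    (hg2.sub_const p).inv (hne' a (mem_ball_self hρ))
  rw [hder2.deriv, hψa, norm_div, norm_neg, norm_inv, norm_pow] at hcauchy
  have h1 : 0 < ‖z₀ - p‖ := by
    have := hfar a (mem_ball_self hρ)
    rw [hψa] at this
    linarith
  have h2 : 0 < ‖g'‖ := norm_pos_iff.2 hg0
  rw [div_le_div_iff₀ (by positivity) (by positivity)] at hcauchy
  have h3 : ‖g'‖⁻¹ * (ρ / 2) * (‖g'‖ * r) ≤ r⁻¹ * ‖z₀ - p‖ ^ 2 * (‖g'‖ * r) :=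
    mul_le_mul_of_nonneg_right hcauchy (by positivity)
  have h4 : ‖g'‖⁻¹ * (ρ / 2) * (‖g'‖ * r) = r * ρ / 2 := by
    field_simp
  have h5 : r⁻¹ * ‖z₀ - p‖ ^ 2 * (‖g'‖ * r) = ‖z₀ - p‖ ^ 2 * ‖g'‖ := by
    field_simp
  rw [h4, h5] at h3
  linarith

end Pool.Agent.X304.Newt
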