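import Pool.Agent.X304.Newt.Lower

/-!
# No parabolic point at infinity without a free critical point
-/

open Polynomial Filter Topology Bornology Metric

namespace Pool.Agent.X304.Newt

variable {Q P : ℂ[X]}

theorem norm_W (z : ℂ) : ‖W Q z‖ = ‖Q.leadingCoeff‖ * ‖z‖ ^ (Q.natDegree + 1) := by
  rw [W, norm_mul, norm_neg, norm_pow]

theorem exists_T (hQ : Q ≠ 0) (hP : P ≠ 0) {η : ℝ} (hη : 0 < η) :
    ∃ T : ℝ, ∀ z, T ≤ ‖W Q z‖ → (dd Q P).eval z ≠ 0 ∧
      ‖W Q (N Q P z) - W Q z - (Q.natDegree + 1)‖ ≤ η := by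
  obtain ⟨M, hM⟩ := exists_bound hQ hP
  have h2 : ∀ᶠ z : ℂ in cobounded ℂ, ‖W Q (N Q P z) - W Q z - (Q.natDegree + 1)‖ < η := by
    have := tendsto_W hQ hP
    rw [Metric.tendsto_nhds] at this
    filter_upwards [this η hη] with z hz
    rwa [dist_eq_norm] at hz
  rw [← comap_norm_atTop, eventually_comap, eventually_atTop] at h2
  obtain ⟨M', hM'⟩ := h2
  set L := max (max M M') 0 with hL
  have hc : 0 < ‖Q.leadingCoeff‖ := norm_pos_iff.2 (leadingCoeff_ne_zero.2 hQ)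
  refine ⟨‖Q.leadingCoeff‖ * L ^ (Q.natDegree + 1), fun z hz => ?_⟩
  rw [norm_W] at hz
  have h3 : L ≤ ‖z‖ := by
    by_contra h
    push Not at h
    have h4 : ‖z‖ ^ (Q.natDegree + 1) < L ^ (Q.natDegree + 1) :=
      pow_lt_pow_left₀ h (norm_nonneg z) (by omega)
    nlinarith
  have h5 : M ≤ ‖z‖ := ((le_max_left _ _).trans (le_max_left _ _)).trans h3
  have h6 : M' ≤ ‖z‖ := ((le_max_right _ _).trans (le_max_left _ _)).trans h3
  exact ⟨(hM z h5).1, (hM' ‖z‖ h6 z rfl).le⟩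

/-- `R` is a good radius. -/
def Good (Q P : ℂ[X]) (R : ℝ) : Prop :=
  0 ≤ R ∧ ∀ z, R < (W Q z).re → (dd Q P).eval z ≠ 0 ∧
    ‖W Q (N Q P z) - W Q z - (Q.natDegree + 1)‖ ≤ 1 / 2

theorem Good.step {R : ℝ} (hR : Good Q P R) {z : ℂ} (hz : R < (W Q z).re) :
    (W Q z).re + 1 / 2 ≤ (W Q (N Q P z)).re := by
  have h1 := (hR.2 z hz).2
  have h2 := (Complex.abs_re_le_norm _).trans h1
  rw [abs_le] at h2
  simp only [Complex.sub_re, Complex.add_re, Complex.natCast_re, Complex.one_re] at h2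
  have : (0 : ℝ) ≤ Q.natDegree := Nat.cast_nonneg _
  linarith [h2.1]

theorem Good.iter {R : ℝ} (hR : Good Q P R) {z : ℂ} (hz : R < (W Q z).re) (n : ℕ) :
    (W Q z).re + n / 2 ≤ (W Q ((N Q P)^[n] z)).re := by
  induction n with
  | zero => simp
  | succ n ih =>
    rw [Function.iterate_succ_apply']
    have h1 : R < (W Q ((N Q P)^[n] z)).re := by
      have : (0 : ℝ) ≤ n := Nat.cast_nonneg _
      linarith
    have h2 := hR.step h1
    push_cast
    linarith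

theorem Good.iter_mem {R : ℝ} (hR : Good Q P R) {z : ℂ} (hz : R < (W Q z).re) (n : ℕ) :
    R < (W Q ((N Q P)^[n] z)).re := by
  have h1 := hR.iter hz n
  have : (0 : ℝ) ≤ n := Nat.cast_nonneg _
  linarith

theorem Good.est (hQ : Q ≠ 0) (hP : P ≠ 0) {R : ℝ} (hR : Good Q P R) {η : ℝ} (hη : 0 < η) :
    ∃ K : ℝ, 0 ≤ K ∧ ∀ z, R < (W Q z).re → ∀ n : ℕ,
      ‖W Q ((N Q P)^[n] z) - W Q z - n * (Q.natDegree + 1)‖ ≤ K + n * η := by
  obtain ⟨T, hT⟩ := exists_T hQ hP hη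
  obtain ⟨K', hK'⟩ := exists_nat_ge (2 * T)
  refine ⟨K' / 2, by positivity, fun z hz n => ?_⟩
  suffices h : ‖W Q ((N Q P)^[n] z) - W Q z - n * (Q.natDegree + 1)‖ ≤
      (min n K' : ℕ) / 2 + n * η by
    refine h.trans ?_
    have : ((min n K' : ℕ) : ℝ) ≤ K' := by exact_mod_cast min_le_right _ _
    linarith
  induction n with
  | zero => simp
  | succ n ih =>
    rw [Function.iterate_succ_apply']
    set w := (N Q P)^[n] z with hw
    have h1 : R < (W Q w).re := hR.iter_mem hz n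
    have e : W Q (N Q P w) - W Q z - ((n + 1 : ℕ) : ℂ) * (Q.natDegree + 1) =
        (W Q w - W Q z - n * (Q.natDegree + 1)) +
          (W Q (N Q P w) - W Q w - (Q.natDegree + 1)) := by
      push_cast; ring
    rw [e]
    refine (norm_add_le _ _).trans ?_
    by_cases hn : n < K'
    · have h2 := (hR.2 w h1).2
      rw [min_eq_left hn.le] at ih
      rw [min_eq_left (by omega)]
      push_cast
      linarith
    · push Not at hn
      have h3 : T ≤ ‖W Q w‖ := by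
        have h4 := hR.iter hz n
        have h5 := Complex.re_le_norm (W Q w)
        have h6 : (K' : ℝ) ≤ n := by exact_mod_cast hn
        have := hR.1
        linarith
      have h2 := (hT w h3).2
      rw [min_eq_right hn] at ih
      rw [min_eq_right (by omega)]
      push_cast
      linarith

/-- The basin of the petals at infinity. -/
def Bas (Q P : ℂ[X]) (R : ℝ) : Set ℂ :=
  {z | ∃ n, R < (W Q ((N Q P)^[n] z)).re ∧ ∀ k < n, (dd Q P).eval ((N Q P)^[k] z) ≠ 0}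

theorem bas_back {R : ℝ} (z : ℂ) (h : (dd Q P).eval z ≠ 0) (hz : N Q P z ∈ Bas Q P R) :
    z ∈ Bas Q P R := by
  obtain ⟨n, h1, h2⟩ := hz
  refine ⟨n + 1, by rwa [Function.iterate_succ_apply], fun k hk => ?_⟩
  rcases k with _ | k
  · exact h
  · rw [Function.iterate_succ_apply]
    exact h2 k (by omega)

theorem bas_fwd {R : ℝ} (hR : Good Q P R) (z : ℂ) (hz : z ∈ Bas Q P R) : N Q P z ∈ Bas Q P R := by
  obtain ⟨n, h1, h2⟩ := hz
  rcases n with _ | n
  · refine ⟨0, ?_, by simp⟩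
    exact hR.iter_mem h1 1
  · refine ⟨n, by rwa [← Function.iterate_succ_apply], fun k hk => ?_⟩
    rw [← Function.iterate_succ_apply]
    exact h2 (k + 1) (by omega)

theorem bas_not_root {R : ℝ} (hR : Good Q P R) (z : ℂ) (hz : z ∈ Bas Q P R) : P.eval z ≠ 0 := by
  intro h
  have hfix : N Q P z = z := by rw [N, h]; simp
  have hfix' : ∀ n, (N Q P)^[n] z = z := fun n => Function.iterate_fixed hfix n
  obtain ⟨n, h1, -⟩ := hz
  rw [hfix'] at h1
  have := hR.step h1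
  rw [hfix] at this
  linarith

/-- Main theorem: for `Q ≠ 0` and nonconstant `P` with simple zeros, some zero of `d(d(P))` is
neither a zero of `P` nor a zero of `d(P)`. -/
theorem main (hQ : Q ≠ 0) (hPd : 0 < P.natDegree)
    (hsimple : ∀ z, P.eval z = 0 → (derivative P).eval z ≠ 0)
    (hZ : ∀ z, (dd Q (dd Q P)).eval z = 0 → P.eval z = 0 ∨ (dd Q P).eval z = 0) : False := by
  have hP : P ≠ 0 := by rintro rfl; simp at hPd
  have hcop : ∀ z, P.eval z = 0 → (dd Q P).eval z ≠ 0 := by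
    intro z hz
    have : (dd Q P).eval z = (derivative P).eval z := by simp [dd, hz]
    rw [this]
    exact hsimple z hz
  have hc : 0 < ‖Q.leadingCoeff‖ := norm_pos_iff.2 (leadingCoeff_ne_zero.2 hQ)
  set q := Q.natDegree with hq
  -- a root and its superattracting disc
  obtain ⟨p, hp⟩ := Complex.exists_root (f := P) (natDegree_pos_iff_degree_pos.1 hPd)
  have hp0 : P.eval p = 0 := hp
  have hNp : N Q P p = p := by rw [N, hp0]; simp
  obtain ⟨r, hr0, hr1, hr⟩ : ∃ r : ℝ, 0 < r ∧ r ≤ 1 ∧ ∀ z, ‖z - p‖ < r → ‖N Q P z - p‖ < r := by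
    have h1 := (hasStrictDerivAt_N (Q := Q) (P := P) (hcop p hp0)).hasDerivAt
    rw [hp0, zero_mul, zero_div, hasDerivAt_iff_isLittleO] at h1
    have h2 := h1.def (show (0 : ℝ) < 1 / 2 by norm_num)
    rw [Metric.eventually_nhds_iff_ball] at h2
    obtain ⟨ε, hε, h3⟩ := h2
    refine ⟨min ε 1, by positivity, min_le_right _ _, fun z hz => ?_⟩
    have h4 := h3 z (by
      rw [mem_ball, dist_eq_norm]
      exact lt_of_lt_of_le hz (min_le_left _ _))
    rw [hNp, smul_zero, sub_zero] at h4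
    have := norm_nonneg (z - p)
    linarith
  -- the good radius
  obtain ⟨T, hT⟩ := exists_T hQ hP (show (0 : ℝ) < 1 / 2 by norm_num)
  set R := max (max T 0) (‖Q.leadingCoeff‖ * (‖p‖ + 1) ^ (q + 1)) with hRdef
  have hR : Good Q P R := by
    refine ⟨(le_max_right _ _).trans (le_max_left _ _), fun z hz => hT z ?_⟩
    exact (((le_max_left _ _).trans (le_max_left _ _)).trans hz.le).trans
      (Complex.re_le_norm _)
  have hRp : ∀ z, ‖z - p‖ < r → (W Q z).re ≤ R := by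
    intro z hz
    have h1 : ‖z‖ ≤ ‖p‖ + 1 := by
      have : ‖z‖ ≤ ‖z - p‖ + ‖p‖ := by
        calc ‖z‖ = ‖(z - p) + p‖ := by congr 1; ring
          _ ≤ _ := norm_add_le _ _
      linarith
    have h2 := Complex.re_le_norm (W Q z)
    rw [norm_W] at h2
    refine h2.trans (le_trans ?_ (le_max_right _ _))
    gcongr
  set s := Bas Q P R with hs
  have hfar : ∀ z ∈ s, r ≤ ‖z - p‖ := by
    intro z hz
    by_contra h
    push Not at h
    have h1 : ∀ n, ‖(N Q P)^[n] z - p‖ < r := by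
      intro n
      induction n with
      | zero => exact h
      | succ n ih => rw [Function.iterate_succ_apply']; exact hr _ ih
    obtain ⟨n, h2, -⟩ := hz
    exact absurd (hRp _ (h1 n)) (not_le.2 h2)
  have hscrit : ∀ z, (dd Q P).eval z ≠ 0 → N Q P z ∈ s →
      P.eval z * (dd Q (dd Q P)).eval z ≠ 0 := by
    intro z hz h1
    have h2 := bas_not_root hR z (bas_back z hz h1)
    refine mul_ne_zero h2 fun h3 => ?_
    rcases hZ z h3 with h | h
    · exact h2 h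
    · exact hz h
  have hpet : ∀ z, R < (W Q z).re → z ∈ s := fun z hz => ⟨0, hz, by simp⟩
  -- base point
  obtain ⟨z₀, hz₀⟩ : ∃ z₀ : ℂ, W Q z₀ = ((R + 1 : ℝ) : ℂ) := by
    obtain ⟨z, hz⟩ := IsAlgClosed.exists_pow_nat_eq
      (((R + 1 : ℝ) : ℂ) / (-Q.leadingCoeff)) (Nat.succ_pos q)
    refine ⟨z, ?_⟩
    rw [W, ← hq, hz]
    have : Q.leadingCoeff ≠ 0 := leadingCoeff_ne_zero.2 hQ
    field_simp
  have hz₀R : R < (W Q z₀).re := by rw [hz₀, Complex.ofReal_re]; linarith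
  have hWc : Continuous (W Q) := by unfold W; fun_prop
  obtain ⟨δ, hδ0, hδ⟩ : ∃ δ : ℝ, 0 < δ ∧ ∀ z ∈ closedBall z₀ δ, R < (W Q z).re ∧
      ‖W Q z - W Q z₀‖ ≤ 1 := by
    have h1 : ∀ᶠ z in 𝓝 z₀, R < (W Q z).re ∧ ‖W Q z - W Q z₀‖ < 1 := by
      refine Filter.Eventually.and ?_ ?_
      · exact (Complex.continuous_re.comp hWc).continuousAt.eventually_const_lt hz₀R
      · have : Continuous fun z => ‖W Q z - W Q z₀‖ := (hWc.sub continuous_const).norm
        refine this.continuousAt.eventually_lt_const ?_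
        simp
    rw [Metric.eventually_nhds_iff_ball] at h1
    obtain ⟨ε, hε, h2⟩ := h1
    refine ⟨ε / 2, by positivity, fun z hz => ?_⟩
    have := h2 z (closedBall_subset_ball (by linarith) hz)
    exact ⟨this.1, this.2.le⟩
  obtain ⟨κ, hκ0, hκ1, hκ⟩ : ∃ κ : ℝ, 0 < κ ∧ κ ≤ 1 ∧ ∀ τ : ℂ, ‖τ‖ < κ →
      ‖(1 + τ) ^ (q + 1) - 1‖ ≤ 1 / 4 := by
    have h1 : Continuous fun τ : ℂ => ‖(1 + τ) ^ (q + 1) - 1‖ := by fun_prop
    have h2 : ∀ᶠ τ in 𝓝 (0 : ℂ), ‖(1 + τ) ^ (q + 1) - 1‖ < 1 / 4 := by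
      refine h1.continuousAt.eventually_lt_const ?_
      simp
    rw [Metric.eventually_nhds_iff_ball] at h2
    obtain ⟨ε, hε, h3⟩ := h2
    refine ⟨min ε 1, by positivity, min_le_right _ _, fun τ hτ => (h3 τ ?_).le⟩
    rw [mem_ball, dist_zero_right]
    exact lt_of_lt_of_le hτ (min_le_left _ _)
  obtain ⟨K₁, hK₁, hest₁⟩ := hR.est hQ hP (show (0 : ℝ) < 1 / 4 by norm_num)
  -- orbit
  have horb : ∀ z, R < (W Q z).re → ∀ k, (dd Q P).eval ((N Q P)^[k] z) ≠ 0 :=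
    fun z hz k => (hR.2 _ (hR.iter_mem hz k)).1
  -- discs inside the petal
  have hdisc : ∀ n : ℕ, 2 * R + 4 * (K₁ + ‖W Q z₀‖) < (n : ℝ) / 2 →
      ball ((N Q P)^[n] z₀) (κ * ‖(N Q P)^[n] z₀‖) ⊆ s := by
    intro n hn z hz
    apply hpet
    set x := (N Q P)^[n] z₀ with hx
    rw [mem_ball, dist_eq_norm] at hz
    have hx0 : x ≠ 0 := by
      rintro h0
      rw [h0] at hz
      simp at hz
      exact absurd hz (not_lt.2 (norm_nonneg _))
    have hτ : ‖(z - x) / x‖ < κ := by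
      rw [norm_div, div_lt_iff₀ (norm_pos_iff.2 hx0)]
      exact hz
    have h1 := hκ _ hτ
    have h2 : W Q z = W Q x + W Q x * ((1 + (z - x) / x) ^ (q + 1) - 1) := by
      have : 1 + (z - x) / x = z / x := by field_simp; ring
      rw [this, W, W, ← hq, div_pow]
      have := pow_ne_zero (q + 1) hx0
      field_simp
      ring
    have h3 : (W Q x).re - ‖W Q x‖ * (1 / 4) ≤ (W Q z).re := by
      rw [h2, Complex.add_re]
      have h4 := (abs_le.1 ((Complex.abs_re_le_norm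
        (W Q x * ((1 + (z - x) / x) ^ (q + 1) - 1))))).1
      rw [norm_mul] at h4
      have h5 : ‖W Q x‖ * ‖(1 + (z - x) / x) ^ (q + 1) - 1‖ ≤ ‖W Q x‖ * (1 / 4) := by gcongr
      linarith
    have h6 := hest₁ z₀ hz₀R n
    have h7 : ‖W Q x - n * (q + 1)‖ ≤ K₁ + n * (1 / 4) + ‖W Q z₀‖ := by
      calc ‖W Q x - n * (q + 1)‖ = ‖(W Q x - W Q z₀ - n * (q + 1)) + W Q z₀‖ := by
            congr 1; ring
        _ ≤ _ := (norm_add_le _ _).trans (by gcongr)
    have h8 : (n : ℝ) * (q + 1) - (K₁ + n * (1 / 4) + ‖W Q z₀‖) ≤ (W Q x).re := by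
      have h9 := (abs_le.1 ((Complex.abs_re_le_norm _).trans h7)).1
      have e : (W Q x - n * (q + 1)).re = (W Q x).re - n * (q + 1) := by
        have : ((n : ℂ) * (q + 1)).re = n * (q + 1) := by
          have : ((n : ℂ) * (q + 1)) = (((n : ℝ) * (q + 1) : ℝ) : ℂ) := by push_cast; ring
          rw [this, Complex.ofReal_re]
        rw [Complex.sub_re, this]
      rw [e] at h9
      linarith
    have h10 : ‖W Q x‖ ≤ n * (q + 1) + (K₁ + n * (1 / 4) + ‖W Q z₀‖) := by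
      calc ‖W Q x‖ = ‖(n : ℂ) * (q + 1) + (W Q x - n * (q + 1))‖ := by congr 1; ring
        _ ≤ ‖(n : ℂ) * (q + 1)‖ + ‖W Q x - n * (q + 1)‖ := norm_add_le _ _
        _ ≤ _ := by
          refine add_le_add (le_of_eq ?_) h7
          have : ((n : ℂ) * (q + 1)) = (((n : ℝ) * (q + 1) : ℝ) : ℂ) := by push_cast; ring
          rw [this, Complex.norm_real, Real.norm_of_nonneg (by positivity)]
    have hq0 : (0 : ℝ) ≤ q := Nat.cast_nonneg _
    have hn0 : (0 : ℝ) ≤ n := Nat.cast_nonneg _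
    have hRn := hR.1
    have hw0 := norm_nonneg (W Q z₀)
    nlinarith [mul_nonneg hn0 hq0]
  -- the contradiction
  set C₁ : ℝ := (q + 1) * (r * κ / (2 * ‖z₀ - p‖ ^ 2)) with hC₁
  have hpz : 0 < ‖z₀ - p‖ := lt_of_lt_of_le hr0 (hfar z₀ (hpet z₀ hz₀R))
  have hC₁0 : 0 < C₁ := by positivity
  set η := C₁ * δ / 8 with hη
  have hη0 : 0 < η := by positivity
  obtain ⟨K, hK, hest⟩ := hR.est hQ hP hη0
  obtain ⟨n, hn⟩ := exists_nat_gt (max (2 * (2 * R + 4 * (K₁ + ‖W Q z₀‖)))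
    (4 * (1 + 2 * K) / (C₁ * δ)))
  have hn1 : 2 * R + 4 * (K₁ + ‖W Q z₀‖) < (n : ℝ) / 2 := by
    have := (le_max_left _ _).trans_lt hn
    linarith
  have hn2 : 4 * (1 + 2 * K) < n * (C₁ * δ) := by
    have := (le_max_right _ _).trans_lt hn
    rwa [div_lt_iff₀ (by positivity)] at this
  set x := (N Q P)^[n] z₀ with hx
  have hxR : R + n / 2 < (W Q x).re := by
    have := hR.iter hz₀R n
    linarith
  have hx0 : x ≠ 0 := by
    rintro h0
    have h1 : W Q x = 0 := by rw [W, h0]; simp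
    rw [h1, Complex.zero_re] at hxR
    have := hR.1
    have hn0 : (0 : ℝ) ≤ n := Nat.cast_nonneg _
    linarith
  obtain ⟨f', hf0, hf'⟩ := exists_hasDerivAt_iter (Q := Q) (P := P) n z₀
    (fun k _ => horb z₀ hz₀R k) (fun k _ => hscrit _ (horb z₀ hz₀R k) (by
      have := hpet _ (hR.iter_mem hz₀R (k + 1))
      rwa [Function.iterate_succ_apply'] at this))
  have hlow := lower_bound hQ hP hcop hscrit (fun z h h' => bas_back z h h')
    (fun z h _ => bas_fwd hR z h) hr0 hfar n z₀ (fun k _ => horb z₀ hz₀R k)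
    (ρ := κ * ‖x‖) (by positivity) (hdisc n hn1) hf'
  -- derivative of W ∘ N^n
  have hWd : HasDerivAt (W Q) (-Q.leadingCoeff * ((q + 1 : ℕ) * x ^ q)) x := by
    have := (hasDerivAt_pow (q + 1) x).const_mul (-Q.leadingCoeff)
    exact this
  have hcomp : HasDerivAt (fun z => W Q ((N Q P)^[n] z) - W Q x)
      (-Q.leadingCoeff * ((q + 1 : ℕ) * x ^ q) * f') z₀ :=
    (hWd.comp z₀ hf').sub_const _
  have hdiff : DiffContOnCl ℂ (fun z => W Q ((N Q P)^[n] z) - W Q x) (ball z₀ δ) := by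
    refine DifferentiableOn.diffContOnCl_ball (U := closedBall z₀ δ) ?_ le_rfl
    intro z hz
    obtain ⟨g', -, hg'⟩ := exists_hasDerivAt_iter (Q := Q) (P := P) n z
      (fun k _ => horb z (hδ z hz).1 k) (fun k _ => hscrit _ (horb z (hδ z hz).1 k) (by
        have := hpet _ (hR.iter_mem (hδ z hz).1 (k + 1))
        rwa [Function.iterate_succ_apply'] at this))
    have h1 : DifferentiableAt ℂ (W Q) ((N Q P)^[n] z) := by
      unfold W; fun_prop
    exact ((h1.comp z hg'.differentiableAt).sub_const _).differentiableWithinAt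
  have hbound : ∀ z ∈ sphere z₀ δ, ‖W Q ((N Q P)^[n] z) - W Q x‖ ≤ 1 + 2 * (K + n * η) := by
    intro z hz
    have hz' := hδ z (sphere_subset_closedBall hz)
    have h1 := hest z hz'.1 n
    have h2 := hest z₀ hz₀R n
    calc ‖W Q ((N Q P)^[n] z) - W Q x‖
        = ‖(W Q z - W Q z₀) + (W Q ((N Q P)^[n] z) - W Q z - n * (q + 1)) -
          (W Q x - W Q z₀ - n * (q + 1))‖ := by congr 1; ring
      _ ≤ ‖(W Q z - W Q z₀) + (W Q ((N Q P)^[n] z) - W Q z - n * (q + 1))‖ +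
          ‖W Q x - W Q z₀ - n * (q + 1)‖ := norm_sub_le _ _
      _ ≤ (‖W Q z - W Q z₀‖ + ‖W Q ((N Q P)^[n] z) - W Q z - n * (q + 1)‖) +
          ‖W Q x - W Q z₀ - n * (q + 1)‖ := by gcongr; exact norm_add_le _ _
      _ ≤ _ := by linarith [hz'.2]
  have hup := Complex.norm_deriv_le_of_forall_mem_sphere_norm_le hδ0 hdiff hbound
  rw [hcomp.deriv, norm_mul, norm_mul, norm_mul, norm_neg, norm_pow, Complex.norm_natCast,
    le_div_iff₀ hδ0] at hup
  have hnorm : ‖W Q x‖ = ‖Q.leadingCoeff‖ * ‖x‖ ^ q * ‖x‖ := by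
    rw [norm_W, ← hq, pow_succ]; ring
  have h11 : r * κ / (2 * ‖z₀ - p‖ ^ 2) * ‖x‖ ≤ ‖f'‖ := by
    rw [div_mul_eq_mul_div, div_le_iff₀ (by positivity)]
    linarith
  have h12 : C₁ * ‖W Q x‖ ≤ ‖Q.leadingCoeff‖ * (((q + 1 : ℕ) : ℝ) * ‖x‖ ^ q) * ‖f'‖ := by
    rw [hnorm, hC₁]
    calc ((q : ℝ) + 1) * (r * κ / (2 * ‖z₀ - p‖ ^ 2)) * (‖Q.leadingCoeff‖ * ‖x‖ ^ q * ‖x‖)
        = ‖Q.leadingCoeff‖ * (((q + 1 : ℕ) : ℝ) * ‖x‖ ^ q) *
          (r * κ / (2 * ‖z₀ - p‖ ^ 2) * ‖x‖) := by push_cast; ring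
      _ ≤ _ := by gcongr
  have h13 : (n : ℝ) / 2 ≤ ‖W Q x‖ := by
    have := Complex.re_le_norm (W Q x)
    have := hR.1
    linarith
  have h14 : C₁ * (n / 2) * δ ≤ 1 + 2 * (K + n * η) := by
    refine le_trans ?_ hup
    exact mul_le_mul_of_nonneg_right ((mul_le_mul_of_nonneg_left h13 hC₁0.le).trans h12) hδ0.le
  rw [hη] at h14
  nlinarith

end Pool.Agent.X304.Newt
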