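import Pool.Agent.X304.Newt.Main

/-!
# Rational functions sharing a value with their derivative in the plane
-/

open Polynomial

namespace Pool.Agent.X304.Newt

/-- The value of a rational function at a point of the plane, as a point of the Riemann sphere. -/
noncomputable def value (R : RatFunc ℂ) (z : ℂ) : OnePoint ℂ :=
  open Classical in
  if R.denom.eval z = 0 then OnePoint.infty else ((R.num.eval z / R.denom.eval z : ℂ) : OnePoint ℂ)

/-- The derivative of a rational function. -/
noncomputable def rderiv (R : RatFunc ℂ) : RatFunc ℂ :=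
  algebraMap ℂ[X] (RatFunc ℂ) (derivative R.num * R.denom - R.num * derivative R.denom) /
    algebraMap ℂ[X] (RatFunc ℂ) (R.denom ^ 2)

/-- `R` and `R'` share the value `a` in the plane. -/
def ShareInPlane (R : RatFunc ℂ) (a : ℂ) : Prop :=
  ∀ z : ℂ, value R z = (a : OnePoint ℂ) ↔ value (rderiv R) z = (a : OnePoint ℂ)

theorem value_eq_iff (R : RatFunc ℂ) (z a : ℂ) :
    value R z = (a : OnePoint ℂ) ↔ R.denom.eval z ≠ 0 ∧ R.num.eval z = a * R.denom.eval z := by
  unfold value
  split_ifs with h
  · simp [h]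
  · rw [OnePoint.coe_eq_coe, div_eq_iff h]
    simp [h]

theorem num_eval_ne (R : RatFunc ℂ) {z : ℂ} (h : R.denom.eval z = 0) : R.num.eval z ≠ 0 := by
  intro h'
  obtain ⟨u, v, huv⟩ := R.isCoprime_num_denom
  have := congrArg (eval z) huv
  simp [h, h'] at this

theorem value_frac {R : RatFunc ℂ} {U V : ℂ[X]} (hV0 : V ≠ 0)
    (hR : R = algebraMap ℂ[X] (RatFunc ℂ) U / algebraMap ℂ[X] (RatFunc ℂ) V) {z : ℂ}
    (hV : V.eval z ≠ 0) (a : ℂ) :
    value R z = (a : OnePoint ℂ) ↔ U.eval z = a * V.eval z := by
  have h1 := (RatFunc.num_mul_eq_mul_denom_iff hV0).2 hR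
  have h2 := congrArg (eval z) h1
  simp only [eval_mul] at h2
  have h3 : R.denom.eval z ≠ 0 := by
    intro h
    rw [h, mul_zero] at h2
    rcases mul_eq_zero.1 h2 with h4 | h4
    · exact num_eval_ne R h h4
    · exact hV h4
  rw [value_eq_iff]
  constructor
  · rintro ⟨-, h4⟩
    rw [h4] at h2
    have : (U.eval z - a * V.eval z) * R.denom.eval z = 0 := by linear_combination -h2
    rcases mul_eq_zero.1 this with h5 | h5
    · exact sub_eq_zero.1 h5
    · exact absurd h5 h3
  · intro h4
    refine ⟨h3, ?_⟩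
    rw [h4] at h2
    have : (R.num.eval z - a * R.denom.eval z) * V.eval z = 0 := by linear_combination h2
    rcases mul_eq_zero.1 this with h5 | h5
    · exact sub_eq_zero.1 h5
    · exact absurd h5 hV

theorem rderiv_denom_eval (R : RatFunc ℂ) {z : ℂ} (h : R.denom.eval z = 0) :
    (rderiv R).denom.eval z = 0 := by
  by_contra hne
  set A := R.num with hA
  set B := R.denom with hB
  have hB0 : B ≠ 0 := R.denom_ne_zero
  have hroot : B.IsRoot z := h
  have h1 := (RatFunc.num_mul_eq_mul_denom_iff (x := rderiv R) (pow_ne_zero 2 hB0)).2 rfl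
  set m := B.rootMultiplicity z with hm
  have hm0 : 0 < m := (rootMultiplicity_pos hB0).2 hroot
  have hdvd : (X - C z) ^ m ∣ B := pow_rootMultiplicity_dvd B z
  have hcop : IsCoprime ((X - C z) ^ m) (rderiv R).denom := by
    refine IsCoprime.pow_left ?_
    rw [(irreducible_X_sub_C z).coprime_iff_not_dvd, dvd_iff_isRoot]
    exact hne
  have hcopA : IsCoprime ((X - C z) ^ m) A := by
    refine IsCoprime.pow_left ?_
    rw [(irreducible_X_sub_C z).coprime_iff_not_dvd, dvd_iff_isRoot]
    exact num_eval_ne R h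
  have h2 : (X - C z) ^ m ∣ (derivative A * B - A * derivative B) * (rderiv R).denom := by
    rw [← h1]
    exact Dvd.dvd.mul_left (dvd_pow hdvd two_ne_zero) _
  have h3 : (X - C z) ^ m ∣ derivative A * B - A * derivative B := hcop.dvd_of_dvd_mul_right h2
  have h4 : (X - C z) ^ m ∣ A * derivative B := by
    have := dvd_sub (Dvd.dvd.mul_left hdvd (derivative A)) h3
    simpa using this
  have h5 : (X - C z) ^ m ∣ derivative B := hcopA.dvd_of_dvd_mul_left h4
  have hB' : derivative B ≠ 0 := by
    intro h0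
    have : B.natDegree = 0 := derivative_eq_zero.1 h0
    rw [eq_C_of_natDegree_eq_zero this] at hroot hB0
    simp only [IsRoot.def, eval_C] at hroot
    rw [hroot] at hB0
    simp at hB0
  have h6 := (le_rootMultiplicity_iff hB').2 h5
  rw [derivative_rootMultiplicity_of_root hroot, ← hm] at h6
  omega

theorem value_rderiv_iff (R : RatFunc ℂ) (z a : ℂ) :
    value (rderiv R) z = (a : OnePoint ℂ) ↔ R.denom.eval z ≠ 0 ∧
      (derivative R.num * R.denom - R.num * derivative R.denom).eval z =
        a * (R.denom ^ 2).eval z := by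
  by_cases h : R.denom.eval z = 0
  · rw [value_eq_iff]
    simp [h, rderiv_denom_eval R h]
  · rw [value_frac (R := rderiv R) (pow_ne_zero 2 R.denom_ne_zero) rfl (by simpa using h)]
    simp [h]

/-- The rational function `a (1 + P/(QP + P'))`. -/
noncomputable def fam (a : ℂ) (P Q : ℂ[X]) : RatFunc ℂ :=
  RatFunc.C a * (1 + algebraMap ℂ[X] (RatFunc ℂ) P /
    algebraMap ℂ[X] (RatFunc ℂ) (Q * P + derivative P))

/-- All zeros of `P` are simple. -/
def SimpleZeros (P : ℂ[X]) : Prop := ∀ z : ℂ, P.IsRoot z → P.rootMultiplicity z = 1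

theorem SimpleZeros.ne_zero {P : ℂ[X]} (h : SimpleZeros P) : P ≠ 0 := by
  rintro rfl
  have := h 0 (by simp)
  simp at this

theorem SimpleZeros.deriv_ne {P : ℂ[X]} (h : SimpleZeros P) (z : ℂ) (hz : P.eval z = 0) :
    (derivative P).eval z ≠ 0 := by
  intro hz'
  have h1 := (one_lt_rootMultiplicity_iff_isRoot h.ne_zero (t := z)).2 ⟨hz, hz'⟩
  have h2 := h z hz
  omega

theorem fam_eq {a : ℂ} {P Q : ℂ[X]} (hD : dd Q P ≠ 0) :
    fam a P Q = algebraMap ℂ[X] (RatFunc ℂ) (C a * (dd Q P + P)) /
      algebraMap ℂ[X] (RatFunc ℂ) (dd Q P) := by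
  have hD' : algebraMap ℂ[X] (RatFunc ℂ) (dd Q P) ≠ 0 := RatFunc.algebraMap_ne_zero hD
  rw [fam, ← dd, map_mul, map_add, RatFunc.algebraMap_C]
  field_simp

/-- Sharing `a` in the plane implies condition (Z). -/
theorem condZ_of_share {a : ℂ} {P Q : ℂ[X]} (ha : a ≠ 0) (hP : SimpleZeros P) (hQ : Q ≠ 0)
    (hsh : ShareInPlane (fam a P Q) a) :
    ∀ z, (dd Q (dd Q P)).eval z = 0 → P.eval z = 0 ∨ (dd Q P).eval z = 0 := by
  intro z hz
  by_contra hcon
  push Not at hcon
  obtain ⟨hPz, hDz⟩ := hcon
  have hD0 := dd_ne_zero hQ hP.ne_zero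
  have h1 := (RatFunc.num_mul_eq_mul_denom_iff hD0).2 (fam_eq (a := a) hD0)
  set A := (fam a P Q).num with hA
  set B := (fam a P Q).denom with hB
  have h2 := congrArg (eval z) h1
  have h3 := congrArg (fun f => eval z (derivative f)) h1
  simp only [eval_mul, eval_add, eval_C, derivative_mul, derivative_add, derivative_C, zero_mul,
    zero_add] at h2 h3
  have e1 : (dd Q (dd Q P)).eval z =
      Q.eval z * (dd Q P).eval z + (derivative (dd Q P)).eval z := by
    conv_lhs => rw [dd]
    simp
  have e2 : (dd Q P).eval z = Q.eval z * P.eval z + (derivative P).eval z := by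
    simp [dd]
  have hBz : B.eval z ≠ 0 := by
    intro h
    rw [h, mul_zero] at h2
    rcases mul_eq_zero.1 h2 with h4 | h4
    · exact num_eval_ne _ h h4
    · exact hDz h4
  have h4 : value (rderiv (fam a P Q)) z = (a : OnePoint ℂ) := by
    rw [value_rderiv_iff]
    refine ⟨hBz, ?_⟩
    simp only [eval_sub, eval_mul, eval_pow]
    rw [← hA, ← hB]
    rw [e1] at hz
    have h5 : (dd Q P).eval z ^ 2 * ((derivative A).eval z * B.eval z -
        A.eval z * (derivative B).eval z - a * B.eval z ^ 2) = 0 := by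
      generalize eval z (derivative (dd Q P)) = D' at *
      generalize eval z (derivative A) = A' at *
      generalize eval z (derivative B) = B' at *
      generalize eval z (dd Q P) = D at *
      generalize eval z A = A0 at *
      generalize eval z B = B0 at *
      generalize eval z P = p at *
      generalize eval z (derivative P) = p' at *
      generalize eval z Q = q0 at *
      linear_combination (D * B0) * h3 - (D * B' + B0 * D') * h2 + (-a * B0 ^ 2 * p) * hz +
        (-a * B0 ^ 2 * D) * e2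
    rcases mul_eq_zero.1 h5 with h6 | h6
    · exact absurd (pow_eq_zero_iff two_ne_zero |>.1 h6) hDz
    · exact sub_eq_zero.1 h6
  rw [← hsh z, value_eq_iff, ← hA, ← hB] at h4
  rw [h4.2] at h2
  have h7 : a * B.eval z * P.eval z = 0 := by linear_combination -h2
  rcases mul_eq_zero.1 h7 with h8 | h8
  · rcases mul_eq_zero.1 h8 with h9 | h9
    · exact ha h9
    · exact hBz h9
  · exact hPz h8

/-- The case of constant `P`. -/
theorem const_case {Q : ℂ[X]} (hQ : 0 < Q.natDegree)
    (hZ : ∀ z, (Q ^ 2 + derivative Q).eval z = 0 → Q.eval z = 0) : False := by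
  have hQ0 : Q ≠ 0 := by rintro rfl; simp at hQ
  have hQ' : derivative Q ≠ 0 := by
    intro h0
    have := derivative_eq_zero.1 h0
    omega
  set F := Q ^ 2 + derivative Q with hF
  have hdeg' : (derivative Q).natDegree < Q.natDegree := natDegree_derivative_lt hQ.ne'
  have hdeg : F.natDegree = 2 * Q.natDegree := by
    rw [hF, natDegree_add_eq_left_of_natDegree_lt, natDegree_pow]
    rw [natDegree_pow]; omega
  have hF0 : F ≠ 0 := by
    rintro h
    rw [h] at hdeg
    simp at hdeg
    omega
  have hdvd : F ∣ derivative Q := by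
    rw [IsAlgClosed.dvd_iff_roots_le_roots hF0 hQ', Multiset.le_iff_count]
    intro z
    rw [count_roots, count_roots]
    set j := F.rootMultiplicity z with hj
    rcases Nat.eq_zero_or_pos j with h0 | h0
    · omega
    have hFz : F.IsRoot z := (rootMultiplicity_pos hF0).1 h0
    have hQz : Q.IsRoot z := hZ z hFz
    set m := Q.rootMultiplicity z with hm
    have hm0 : 0 < m := (rootMultiplicity_pos hQ0).2 hQz
    have h1 : (X - C z) ^ j ∣ F := pow_rootMultiplicity_dvd F z
    have h2 : (X - C z) ^ (2 * m) ∣ Q ^ 2 := by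
      rw [mul_comm, pow_mul]
      exact pow_dvd_pow_of_dvd (pow_rootMultiplicity_dvd Q z) 2
    have h3 : (derivative Q).rootMultiplicity z = m - 1 := derivative_rootMultiplicity_of_root hQz
    by_cases hjm : j ≤ 2 * m
    · rw [le_rootMultiplicity_iff hQ']
      have h4 : (X - C z) ^ j ∣ Q ^ 2 := (pow_dvd_pow _ hjm).trans h2
      have h5 := dvd_sub h1 h4
      rw [hF] at h5
      simpa using h5
    · exfalso
      have h4 : (X - C z) ^ (2 * m) ∣ F := (pow_dvd_pow _ (by omega)).trans h1
      have h5 := dvd_sub h4 h2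
      rw [hF] at h5
      simp only [add_sub_cancel_left] at h5
      have h6 := (le_rootMultiplicity_iff hQ').2 h5
      omega
  have := natDegree_le_of_dvd hdvd hQ'
  omega

theorem no_share {a : ℂ} {P Q : ℂ[X]} (ha : a ≠ 0) (hP : SimpleZeros P) (hQ : Q ≠ 0)
    (hnc : ∀ b : ℂ, fam a P Q ≠ RatFunc.C b) : ¬ ShareInPlane (fam a P Q) a := by
  intro hsh
  have hZ := condZ_of_share ha hP hQ hsh
  rcases Nat.eq_zero_or_pos P.natDegree with h0 | h0
  · obtain ⟨b, hb⟩ : ∃ b, P = C b := ⟨_, eq_C_of_natDegree_eq_zero h0⟩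
    have hb0 : b ≠ 0 := by
      rintro rfl
      exact hP.ne_zero (by simpa using hb)
    subst hb
    have hQd : 0 < Q.natDegree := by
      rcases Nat.eq_zero_or_pos Q.natDegree with h1 | h1
      · exfalso
        obtain ⟨k, hk⟩ : ∃ k, Q = C k := ⟨_, eq_C_of_natDegree_eq_zero h1⟩
        subst hk
        refine hnc (a * (1 + b / (k * b))) ?_
        rw [fam]
        simp only [derivative_C, add_zero, map_mul, RatFunc.algebraMap_C, map_add, map_one,
          map_div₀]
      · exact h1
    refine const_case hQd fun z hz => ?_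
    have h2 : (dd Q (dd Q (C b))).eval z = b * (Q ^ 2 + derivative Q).eval z := by
      simp [dd]
      ring
    rcases hZ z (by rw [h2, hz, mul_zero]) with h3 | h3
    · simp at h3; exact absurd h3 hb0
    · simp [dd] at h3
      rcases h3 with h3 | h3
      · exact h3
      · exact absurd h3 hb0
  · exact main hQ h0 (fun z hz => hP.deriv_ne z hz) hZ

end Pool.Agent.X304.Newt
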